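import Pool.Agent.K7.H37.UK.Stm

/-!
# Project UK, job LOOP: closing loops of good paths are unknotted
-/

set_option autoImplicit false

namespace Pool.Agent.K7.H60.UK

open Pool.Agent.K7.H37.UK

theorem adj_symm {p q : V} (h : Adj p q) : Adj q p := by
  unfold Adj at *
  rw [abs_sub_comm (q 0), abs_sub_comm (q 1), abs_sub_comm (q 2)]
  exact h

theorem adj_ne {p q : V} (h : Adj p q) : p ≠ q := by
  rintro rfl
  unfold Adj at h
  simp at h

theorem LOOP : StLoopJob := by
  intro hCyc v u rest w hP hvw hwu hw
  obtain ⟨hnd, hch, H, hH1, hH2, hH3⟩ := hP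
  set P : List V := v :: u :: rest with hPdef
  have hvw' : v ≠ w := adj_ne hvw
  -- the loop is an initial part of the path
  obtain ⟨l1, l2, hsplit, hw1⟩ : ∃ l1 l2, P = l1 ++ w :: l2 ∧ w ∉ l1 := by
    exact List.eq_append_cons_of_mem hw
  have htake : P.takeWhile (fun v => decide (v ≠ w)) = l1 := by
    rw [hsplit, List.takeWhile_append_of_pos]
    · simp
    · intro a ha
      simp only [decide_eq_true_eq]
      rintro rfl
      exact hw1 ha
  have hloop : loop P w = l1 ++ [w] := by
    unfold loop
    rw [htake]
  have hPeq : P = (l1 ++ [w]) ++ l2 := by rw [hsplit]; simp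
  have hpre : (l1 ++ [w]) <+: P := ⟨l2, hPeq.symm⟩
  have hsub := hpre.sublist
  have hlen : 2 ≤ l1.length := by
    rcases l1 with _ | ⟨a, _ | ⟨b, l1⟩⟩
    · simp only [hPdef, List.nil_append, List.cons.injEq] at hsplit
      exact absurd hsplit.1 hvw'
    · simp only [hPdef, List.cons_append, List.nil_append, List.cons.injEq] at hsplit
      exact absurd hsplit.2.1.symm hwu
    · simp
  have hlen3 : 3 ≤ (l1 ++ [w]).length := by simp; omega
  have hch' : (l1 ++ [w]).IsChain Adj := by
    rw [hPeq, List.isChain_append] at hch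
    exact hch.1
  rw [hloop]
  apply hCyc (l1 ++ [w]) H hlen3 (hnd.sublist hsub)
  · intro e he
    obtain ⟨i, hi, rfl⟩ := List.mem_iff_getElem.1 he
    rw [List.length_zip, List.length_rotate, min_self] at hi
    rw [List.getElem_zip]
    simp only [List.getElem_rotate]
    by_cases hi1 : i + 1 < (l1 ++ [w]).length
    · have h2 : (i + 1) % (l1 ++ [w]).length = i + 1 := Nat.mod_eq_of_lt hi1
      simp only [h2]
      exact (List.isChain_iff_getElem.1 hch') i hi1
    · have h2 : i + 1 = (l1 ++ [w]).length := by omega
      have h3 : (i + 1) % (l1 ++ [w]).length = 0 := by rw [h2, Nat.mod_self]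
      simp only [h3]
      have h4 : (l1 ++ [w])[i] = w := by
        have h5 : i = l1.length := by simp at h2; omega
        subst h5
        simp
      have h6 : (l1 ++ [w])[0]'(by omega) = v := by
        have h7 : P[0]'(by simp [hPdef]) = v := by simp [hPdef]
        rw [← h7]
        exact hpre.getElem _
      rw [h4, h6]
      exact adj_symm hvw
  · refine ⟨fun a ha b hb => hH1 a (hsub.subset ha) b (hsub.subset hb),
      fun a ha b hb => hH2 a (hsub.subset ha) b (hsub.subset hb), ?_⟩
    intro a b c e habce
    exact hH3 a b c e (habce.trans (hsub.map H))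

end Pool.Agent.K7.H60.UK
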